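import Mathlib

set_option autoImplicit false

/-!
The RAT-degree of every stable matching mechanism is at most `3` (two agents on each side suffice),
so no family of stable matching mechanisms has linear RAT-degree.
-/

namespace Pool.Agent.Results.MP_35fdad_lc.RatDegreeAtMostThree

universe u

/-- The other side: the possible partners of an agent (besides being unmatched). -/
def Opp {M W : Type u} : M ⊕ W → Type u
  | .inl _ => W
  | .inr _ => M

/-- A strict linear order on `Option α`, where `none` stands for being unmatched;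
`r x y` means that `x` is strictly preferred to `y`. -/
def Pref (α : Type u) : Type u :=
  {r : Option α → Option α → Prop // IsStrictTotalOrder (Option α) r}

/-- A profile of (reported or true) preferences of all agents. -/
def Profile (M W : Type u) : Type u := (a : M ⊕ W) → Pref (Opp a)

/-- Matchings. -/
structure Matching (M W : Type u) where
  /-- the partner of each agent, `none` if the agent is unmatched -/
  partner : (a : M ⊕ W) → Option (Opp a)
  consistent : ∀ (m : M) (w : W), partner (.inl m) = some w ↔ partner (.inr w) = some m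

variable {M W : Type u}

/-- A matching is stable for a profile: no agent strictly prefers being unmatched to its partner,
and no pair strictly prefer each other to their partners. -/
def Stable (P : Profile M W) (μ : Matching M W) : Prop :=
  (∀ a, ¬ (P a).1 none (μ.partner a)) ∧
    ∀ (m : M) (w : W), ¬ ((P (.inl m)).1 (some w) (μ.partner (.inl m)) ∧
      (P (.inr w)).1 (some m) (μ.partner (.inr w)))

/-- A stable matching mechanism. -/
def IsStableMechanism (F : Profile M W → Matching M W) : Prop := ∀ P, Stable P (F P)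

open Classical in
/-- The profile in which the agent `i` reports `r` instead. -/
noncomputable def replace (Q : Profile M W) (i : M ⊕ W) (r : Pref (Opp i)) : Profile M W :=
  Function.update Q i r

/-- `F` is `k`-known-agents safely manipulable: there are an agent `i`, a set `K` of `k` other
agents, a profile `P` (of which only `P i`, the true order of `i`, and the reports of `K` matter)
and a report `r ≠ P i` that is safe and profitable given these: for all profiles `Q` that agree
with `P` on `i` and on `K`, the agent `i` weakly prefers its partner when it reports `r`, and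
strictly prefers it for some such `Q`. -/
def SafelyManipulable (F : Profile M W → Matching M W) (k : ℕ) : Prop :=
  ∃ (i : M ⊕ W) (K : Finset (M ⊕ W)) (P : Profile M W) (r : Pref (Opp i)),
    i ∉ K ∧ K.card = k ∧ r ≠ P i ∧
    (∀ Q : Profile M W, Q i = P i → (∀ a ∈ K, Q a = P a) →
      ((F (replace Q i r)).partner i = (F Q).partner i ∨
        (P i).1 ((F (replace Q i r)).partner i) ((F Q).partner i))) ∧
    (∃ Q : Profile M W, Q i = P i ∧ (∀ a ∈ K, Q a = P a) ∧
      (P i).1 ((F (replace Q i r)).partner i) ((F Q).partner i))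

/-- The RAT-degree: the least `k ≤ n - 1` for which the mechanism is `k`-known-agents safely
manipulable, and `n` if there is none, where `n = |M| + |W|`. -/
noncomputable def ratDegree (F : Profile M W → Matching M W) : ℕ :=
  sInf ({k | k < Nat.card M + Nat.card W ∧ SafelyManipulable F k} ∪ {Nat.card M + Nat.card W})

/-! ### Construction of orders -/

/-- The order given by an injective rank function. -/
def ofRank {α : Type u} (f : Option α → ℕ) (hf : Function.Injective f) : Pref α :=
  ⟨fun x y => f x < f y,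
    { irrefl := fun x => lt_irrefl _
      trans := fun _ _ _ h1 h2 => lt_trans h1 h2
      trichotomous := fun x y h1 h2 => hf (le_antisymm (not_lt.1 h2) (not_lt.1 h1)) }⟩

section Rank
variable {α : Type u} (e : α → ℕ) (he : Function.Injective e) (a b : α)

open Classical in
/-- `a` first, `b` second, then unmatched. -/
noncomputable def rank₁ : Option α → ℕ
  | none => 2
  | some x => if x = a then 0 else if x = b then 1 else 3 + e x

open Classical in
/-- `a` first, then unmatched. -/
noncomputable def rank₂ : Option α → ℕ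
  | none => 1
  | some x => if x = a then 0 else 2 + e x

include he in
theorem rank₁_inj (hab : a ≠ b) : Function.Injective (rank₁ e a b) := by
  intro x y h
  rcases x with _ | x <;> rcases y with _ | y
  · rfl
  · exfalso
    simp only [rank₁] at h
    split_ifs at h <;> omega
  · exfalso
    simp only [rank₁] at h
    split_ifs at h <;> omega
  · simp only [rank₁] at h
    split_ifs at h with h1 h2 h3 h4 h5 h6 h7 h8 <;> first
      | omega
      | (simp only [Option.some.injEq]; first
          | exact he (by omega)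
          | simp_all)

include he in
theorem rank₂_inj : Function.Injective (rank₂ e a) := by
  intro x y h
  rcases x with _ | x <;> rcases y with _ | y
  · rfl
  · exfalso
    simp only [rank₂] at h
    split_ifs at h <;> omega
  · exfalso
    simp only [rank₂] at h
    split_ifs at h <;> omega
  · simp only [rank₂] at h
    split_ifs at h with h1 h2 h3 <;> first
      | omega
      | (simp only [Option.some.injEq]; first
          | exact he (by omega)
          | simp_all)

/-- The order `a`, `b`, unmatched, and then the rest. -/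
noncomputable def pref₁ (hab : a ≠ b) : Pref α := ofRank (rank₁ e a b) (rank₁_inj e he a b hab)

/-- The order `a`, unmatched, and then the rest. -/
noncomputable def pref₂ : Pref α := ofRank (rank₂ e a) (rank₂_inj e he a)

theorem pref₁_ir (hab : a ≠ b) (x : Option α) (h : ¬ (pref₁ e he a b hab).1 none x) :
    x = some a ∨ x = some b ∨ x = none := by
  rcases x with _ | x
  · exact Or.inr (Or.inr rfl)
  · by_cases h1 : x = a
    · exact Or.inl (by rw [h1])
    · by_cases h2 : x = b
      · exact Or.inr (Or.inl (by rw [h2]))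
      · exfalso
        apply h
        show rank₁ e a b none < rank₁ e a b (some x)
        simp only [rank₁, if_neg h1, if_neg h2]
        omega

theorem pref₂_ir (x : Option α) (h : ¬ (pref₂ e he a).1 none x) :
    x = some a ∨ x = none := by
  rcases x with _ | x
  · exact Or.inr rfl
  · by_cases h1 : x = a
    · exact Or.inl (by rw [h1])
    · exfalso
      apply h
      show rank₂ e a none < rank₂ e a (some x)
      simp only [rank₂, if_neg h1]
      omega

theorem pref₁_ab (hab : a ≠ b) : (pref₁ e he a b hab).1 (some a) (some b) := by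
  show rank₁ e a b (some a) < rank₁ e a b (some b)
  simp [rank₁, hab.symm]

theorem pref₁_an (hab : a ≠ b) : (pref₁ e he a b hab).1 (some a) none := by
  show rank₁ e a b (some a) < rank₁ e a b none
  simp [rank₁]

theorem pref₁_bn (hab : a ≠ b) : (pref₁ e he a b hab).1 (some b) none := by
  show rank₁ e a b (some b) < rank₁ e a b none
  simp only [rank₁]
  split_ifs <;> omega

theorem pref₂_an : (pref₂ e he a).1 (some a) none := by
  show rank₂ e a (some a) < rank₂ e a none
  simp [rank₂]

theorem pref₂_ne (hab : a ≠ b) : pref₂ e he a ≠ pref₁ e he a b hab := by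
  intro h
  have h1 : (pref₂ e he a).1 none (some b) := by
    show rank₂ e a none < rank₂ e a (some b)
    simp only [rank₂, if_neg hab.symm]
    omega
  rw [h] at h1
  have h2 := pref₁_bn e he a b hab
  have h3 : rank₁ e a b none < rank₁ e a b (some b) := h1
  have h4 : rank₁ e a b (some b) < rank₁ e a b none := h2
  omega

end Rank

/-! ### The four-agent market -/

section Market

/-- The reports of the four agents. -/
structure Four (eM : M → ℕ) (heM : Function.Injective eM) (eW : W → ℕ)
    (heW : Function.Injective eW) (m₁ m₂ : M) (w₁ w₂ : W) (hm : m₁ ≠ m₂) (hw : w₁ ≠ w₂)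
    (Q : Profile M W) : Prop where
  pm₁ : Q (.inl m₁) = pref₁ eW heW w₁ w₂ hw
  pm₂ : Q (.inl m₂) = pref₁ eW heW w₂ w₁ hw.symm
  pw₁ : Q (.inr w₁) = pref₁ eM heM m₂ m₁ hm.symm
  pw₂ : Q (.inr w₂) = pref₁ eM heM m₁ m₂ hm

variable (eM : M → ℕ) (heM : Function.Injective eM) (eW : W → ℕ) (heW : Function.Injective eW)
  (m₁ m₂ : M) (w₁ w₂ : W) (hm : m₁ ≠ m₂) (hw : w₁ ≠ w₂)

theorem four_stable (Q : Profile M W)
    (hQ : Four eM heM eW heW m₁ m₂ w₁ w₂ hm hw Q) (μ : Matching M W) (hμ : Stable Q μ) :
    (μ.partner (.inl m₁) = some w₁ ∧ μ.partner (.inr w₁) = some m₁) ∨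
      (μ.partner (.inl m₁) = some w₂ ∧ μ.partner (.inr w₁) = some m₂) := by
  obtain ⟨hir, hbl⟩ := hμ
  have im₁ := hir (.inl m₁)
  have im₂ := hir (.inl m₂)
  have iw₁ := hir (.inr w₁)
  have iw₂ := hir (.inr w₂)
  rw [hQ.pm₁] at im₁
  rw [hQ.pm₂] at im₂
  rw [hQ.pw₁] at iw₁
  rw [hQ.pw₂] at iw₂
  replace im₁ := pref₁_ir _ _ _ _ _ _ im₁
  replace im₂ := pref₁_ir _ _ _ _ _ _ im₂
  replace iw₁ := pref₁_ir _ _ _ _ _ _ iw₁
  replace iw₂ := pref₁_ir _ _ _ _ _ _ iw₂
  have c11 := μ.consistent m₁ w₁
  have c12 := μ.consistent m₁ w₂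
  have c21 := μ.consistent m₂ w₁
  have c22 := μ.consistent m₂ w₂
  rcases im₁ with h1 | h1 | h1
  · exact Or.inl ⟨h1, c11.1 h1⟩
  · right
    refine ⟨h1, ?_⟩
    rcases iw₁ with h2 | h2 | h2
    · exact h2
    · exfalso
      have := c11.2 h2
      rw [h1] at this
      exact hw (Option.some.inj this).symm
    · exfalso
      -- `w₁` unmatched; `m₂` is not with `w₂`, so unmatched
      have h3 : μ.partner (.inl m₂) = none := by
        rcases im₂ with h3 | h3 | h3
        · exfalso
          have h4 := c22.1 h3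
          have h5 := c12.1 h1
          rw [h4] at h5
          exact hm (Option.some.inj h5).symm
        · exfalso
          have h4 := c21.1 h3
          rw [h4] at h2
          cases h2
        · exact h3
      apply hbl m₂ w₁
      rw [hQ.pm₂, hQ.pw₁, h2, h3]
      exact ⟨pref₁_bn _ _ _ _ _, pref₁_an _ _ _ _ _⟩
  · exfalso
    rcases iw₂ with h2 | h2 | h2
    · have := c12.2 h2
      rw [h1] at this
      cases this
    · apply hbl m₁ w₂
      rw [hQ.pm₁, hQ.pw₂, h1, h2]
      exact ⟨pref₁_bn _ _ _ _ _, pref₁_ab _ _ _ _ _⟩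
    · apply hbl m₁ w₂
      rw [hQ.pm₁, hQ.pw₂, h1, h2]
      exact ⟨pref₁_bn _ _ _ _ _, pref₁_an _ _ _ _ _⟩

theorem trunc_w₁ (Q : Profile M W)
    (q1 : Q (.inl m₁) = pref₁ eW heW w₁ w₂ hw) (q2 : Q (.inl m₂) = pref₁ eW heW w₂ w₁ hw.symm)
    (q3 : Q (.inr w₁) = pref₂ eM heM m₂) (q4 : Q (.inr w₂) = pref₁ eM heM m₁ m₂ hm)
    (μ : Matching M W) (hμ : Stable Q μ) : μ.partner (.inr w₁) = some m₂ := by
  obtain ⟨hir, hbl⟩ := hμ
  have im₁ := hir (.inl m₁)
  have im₂ := hir (.inl m₂)
  have iw₁ := hir (.inr w₁)
  rw [q1] at im₁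
  rw [q2] at im₂
  rw [q3] at iw₁
  replace im₁ := pref₁_ir _ _ _ _ _ _ im₁
  replace im₂ := pref₁_ir _ _ _ _ _ _ im₂
  replace iw₁ := pref₂_ir _ _ _ _ iw₁
  have c11 := μ.consistent m₁ w₁
  have c12 := μ.consistent m₁ w₂
  have c21 := μ.consistent m₂ w₁
  have c22 := μ.consistent m₂ w₂
  rcases iw₁ with h | h
  · exact h
  · exfalso
    rcases im₂ with h2 | h2 | h2
    · -- `m₂` with `w₂`, so `m₁` is unmatched
      have h4 := c22.1 h2
      rcases im₁ with h3 | h3 | h3
      · have := c11.1 h3
        rw [h] at this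
        cases this
      · have := c12.1 h3
        rw [h4] at this
        exact hm (Option.some.inj this).symm
      · apply hbl m₁ w₂
        rw [q1, q4, h3, h4]
        exact ⟨pref₁_bn _ _ _ _ _, pref₁_ab _ _ _ _ _⟩
    · have := c21.1 h2
      rw [h] at this
      cases this
    · apply hbl m₂ w₁
      rw [q2, q3, h2, h]
      exact ⟨pref₁_bn _ _ _ _ _, pref₂_an _ _ _⟩

theorem trunc_m₁ (Q : Profile M W)
    (q1 : Q (.inl m₁) = pref₂ eW heW w₁) (q2 : Q (.inl m₂) = pref₁ eW heW w₂ w₁ hw.symm)
    (q3 : Q (.inr w₁) = pref₁ eM heM m₂ m₁ hm.symm) (q4 : Q (.inr w₂) = pref₁ eM heM m₁ m₂ hm)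
    (μ : Matching M W) (hμ : Stable Q μ) : μ.partner (.inl m₁) = some w₁ := by
  obtain ⟨hir, hbl⟩ := hμ
  have im₁ := hir (.inl m₁)
  have iw₁ := hir (.inr w₁)
  have iw₂ := hir (.inr w₂)
  rw [q1] at im₁
  rw [q3] at iw₁
  rw [q4] at iw₂
  replace im₁ := pref₂_ir _ _ _ _ im₁
  replace iw₁ := pref₁_ir _ _ _ _ _ _ iw₁
  replace iw₂ := pref₁_ir _ _ _ _ _ _ iw₂
  have c11 := μ.consistent m₁ w₁
  have c12 := μ.consistent m₁ w₂
  have c21 := μ.consistent m₂ w₁
  have c22 := μ.consistent m₂ w₂
  rcases im₁ with h | h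
  · exact h
  · exfalso
    rcases iw₁ with h2 | h2 | h2
    · -- `w₁` with `m₂`, so `w₂` is unmatched
      have h4 := c21.2 h2
      rcases iw₂ with h3 | h3 | h3
      · have := c12.2 h3
        rw [h] at this
        cases this
      · have := c22.2 h3
        rw [h4] at this
        exact hw (Option.some.inj this)
      · apply hbl m₂ w₂
        rw [q2, q4, h3, h4]
        exact ⟨pref₁_ab _ _ _ _ _, pref₁_bn _ _ _ _ _⟩
    · have := c11.2 h2
      rw [h] at this
      cases this
    · apply hbl m₁ w₁
      rw [q1, q3, h2, h]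
      exact ⟨pref₂_an _ _ _, pref₁_bn _ _ _ _ _⟩

end Market

theorem replace_same (Q : Profile M W) (i : M ⊕ W) (r : Pref (Opp i)) : replace Q i r i = r := by
  classical
  unfold replace
  exact Function.update_self i r Q

theorem replace_ne (Q : Profile M W) (i a : M ⊕ W) (r : Pref (Opp i)) (h : a ≠ i) :
    replace Q i r a = Q a := by
  classical
  unfold replace
  exact Function.update_of_ne h r Q

/-- Every stable mechanism with two agents on each side is `3`-known-agents safely manipulable. -/
theorem manipulable [Finite M] [Finite W] (hM : 2 ≤ Nat.card M) (hW : 2 ≤ Nat.card W)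
    (F : Profile M W → Matching M W) (hF : IsStableMechanism F) : SafelyManipulable F 3 := by
  classical
  obtain ⟨eM, heM⟩ := Countable.exists_injective_nat M
  obtain ⟨eW, heW⟩ := Countable.exists_injective_nat W
  have := Finite.one_lt_card_iff_nontrivial.1 (by omega : 1 < Nat.card M)
  have := Finite.one_lt_card_iff_nontrivial.1 (by omega : 1 < Nat.card W)
  obtain ⟨m₁, m₂, hm⟩ := exists_pair_ne M
  obtain ⟨w₁, w₂, hw⟩ := exists_pair_ne W
  -- the profile
  let P : Profile M W := fun a => match a with
    | .inl m => if m = m₁ then pref₁ eW heW w₁ w₂ hw else pref₁ eW heW w₂ w₁ hw.symm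
    | .inr w => if w = w₁ then pref₁ eM heM m₂ m₁ hm.symm else pref₁ eM heM m₁ m₂ hm
  have P1 : P (.inl m₁) = pref₁ eW heW w₁ w₂ hw := if_pos rfl
  have P2 : P (.inl m₂) = pref₁ eW heW w₂ w₁ hw.symm := if_neg hm.symm
  have P3 : P (.inr w₁) = pref₁ eM heM m₂ m₁ hm.symm := if_pos rfl
  have P4 : P (.inr w₂) = pref₁ eM heM m₁ m₂ hm := if_neg hw.symm
  by_cases hcase : ∃ Q, Four eM heM eW heW m₁ m₂ w₁ w₂ hm hw Q ∧
      (F Q).partner (.inr w₁) = some m₁
  · -- the agent `w₁` truncates
    obtain ⟨Q₀, hQ₀, hQ₀'⟩ := hcase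
    refine ⟨.inr w₁, {.inl m₁, .inl m₂, .inr w₂}, P, pref₂ eM heM m₂, ?_, ?_, ?_, ?_, ?_⟩
    · simp [hw]
    · rw [Finset.card_insert_of_notMem, Finset.card_insert_of_notMem, Finset.card_singleton]
      · simp
      · simp [hm]
    · rw [P3]
      exact pref₂_ne _ _ _ _ _
    · intro Q h1 h2
      have q1 : Q (.inl m₁) = _ := (h2 _ (by simp)).trans P1
      have q2 : Q (.inl m₂) = _ := (h2 _ (by simp)).trans P2
      have q4 : Q (.inr w₂) = _ := (h2 _ (by simp)).trans P4
      have q3 : Q (.inr w₁) = _ := h1.trans P3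
      have t := trunc_w₁ eM heM eW heW m₁ m₂ w₁ w₂ hm hw (replace Q (.inr w₁) (pref₂ eM heM m₂))
        ((replace_ne _ _ _ _ (by simp)).trans q1) ((replace_ne _ _ _ _ (by simp)).trans q2)
        (replace_same _ _ _) ((replace_ne _ _ _ _ (by simpa using hw.symm)).trans q4)
        _ (hF _)
      rw [t, P3]
      rcases four_stable eM heM eW heW m₁ m₂ w₁ w₂ hm hw Q ⟨q1, q2, q3, q4⟩ _ (hF Q) with h | h
      · right
        rw [h.2]
        exact pref₁_ab _ _ _ _ _
      · left
        exact h.2.symm
    · refine ⟨Q₀, hQ₀.pw₁.trans P3.symm, ?_, ?_⟩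
      · intro a ha
        simp only [Finset.mem_insert, Finset.mem_singleton] at ha
        rcases ha with rfl | rfl | rfl
        · exact hQ₀.pm₁.trans P1.symm
        · exact hQ₀.pm₂.trans P2.symm
        · exact hQ₀.pw₂.trans P4.symm
      · have t := trunc_w₁ eM heM eW heW m₁ m₂ w₁ w₂ hm hw
          (replace Q₀ (.inr w₁) (pref₂ eM heM m₂))
          ((replace_ne _ _ _ _ (by simp)).trans hQ₀.pm₁)
          ((replace_ne _ _ _ _ (by simp)).trans hQ₀.pm₂)
          (replace_same _ _ _) ((replace_ne _ _ _ _ (by simpa using hw.symm)).trans hQ₀.pw₂)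
          _ (hF _)
        rw [t, hQ₀', P3]
        exact pref₁_ab _ _ _ _ _
  · -- the agent `m₁` truncates
    have hall : ∀ Q, Four eM heM eW heW m₁ m₂ w₁ w₂ hm hw Q →
        (F Q).partner (.inl m₁) = some w₂ := by
      intro Q hQ
      rcases four_stable eM heM eW heW m₁ m₂ w₁ w₂ hm hw Q hQ _ (hF Q) with h | h
      · exact absurd ⟨Q, hQ, h.2⟩ hcase
      · exact h.1
    have hmain : ∀ Q : Profile M W, Q (.inl m₁) = P (.inl m₁) →
        (∀ a ∈ ({.inl m₂, .inr w₁, .inr w₂} : Finset (M ⊕ W)), Q a = P a) →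
        (P (.inl m₁)).1 ((F (replace Q (.inl m₁) (pref₂ eW heW w₁))).partner (.inl m₁))
          ((F Q).partner (.inl m₁)) := by
      intro Q h1 h2
      have q1 : Q (.inl m₁) = _ := h1.trans P1
      have q2 : Q (.inl m₂) = _ := (h2 _ (by simp)).trans P2
      have q3 : Q (.inr w₁) = _ := (h2 _ (by simp)).trans P3
      have q4 : Q (.inr w₂) = _ := (h2 _ (by simp)).trans P4
      have t := trunc_m₁ eM heM eW heW m₁ m₂ w₁ w₂ hm hw (replace Q (.inl m₁) (pref₂ eW heW w₁))
        (replace_same _ _ _) ((replace_ne _ _ _ _ (by simpa using hm.symm)).trans q2)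
        ((replace_ne _ _ _ _ (by simp)).trans q3) ((replace_ne _ _ _ _ (by simp)).trans q4)
        _ (hF _)
      rw [t, hall Q ⟨q1, q2, q3, q4⟩, P1]
      exact pref₁_ab _ _ _ _ _
    refine ⟨.inl m₁, {.inl m₂, .inr w₁, .inr w₂}, P, pref₂ eW heW w₁, ?_, ?_, ?_, ?_, ?_⟩
    · simp [hm]
    · rw [Finset.card_insert_of_notMem, Finset.card_insert_of_notMem, Finset.card_singleton]
      · simp [hw]
      · simp
    · rw [P1]
      exact pref₂_ne _ _ _ _ _
    · intro Q h1 h2
      exact Or.inr (hmain Q h1 h2)
    · exact ⟨P, rfl, fun _ _ => rfl, hmain P rfl fun _ _ => rfl⟩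

/-- For all finite `M`, `W` with at least two agents each, every stable matching mechanism has
RAT-degree at most `3`.  Consequently there is no family of stable matching mechanisms whose
RAT-degree is at least `c (|M| + |W|)`, `c > 0`, for all large `|M| + |W|`. -/
theorem result :
    (∀ (M W : Type u) [Finite M] [Finite W], 2 ≤ Nat.card M → 2 ≤ Nat.card W →
      ∀ F : Profile M W → Matching M W, IsStableMechanism F → ratDegree F ≤ 3) ∧
    ¬ ∃ F : (M W : Type u) → Profile M W → Matching M W,
      (∀ (M W : Type u) [Finite M] [Finite W], IsStableMechanism (F M W)) ∧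
      ∃ (c : ℝ) (n₀ : ℕ), 0 < c ∧ ∀ (M W : Type u) [Finite M] [Finite W],
        n₀ ≤ Nat.card M + Nat.card W →
          c * (Nat.card M + Nat.card W : ℕ) ≤ ratDegree (F M W) := by
  have h1 : ∀ (M W : Type u) [Finite M] [Finite W], 2 ≤ Nat.card M → 2 ≤ Nat.card W →
      ∀ F : Profile M W → Matching M W, IsStableMechanism F → ratDegree F ≤ 3 := by
    intro M W _ _ hM hW F hF
    refine Nat.sInf_le (Or.inl ⟨?_, manipulable hM hW F hF⟩)
    omega
  refine ⟨h1, ?_⟩
  rintro ⟨F, hF, c, n₀, hc, h⟩
  obtain ⟨N, hN⟩ := exists_nat_gt (3 / c)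
  rw [div_lt_iff₀ hc] at hN
  let X : Type u := ULift (Fin (N + n₀ + 2))
  have hX : Nat.card X = N + n₀ + 2 := by simp [X]
  have h2 := h1 X X (by omega) (by omega) (F X X) (hF X X)
  have h3 := h X X (by omega)
  rw [hX] at h3
  have h4 : (ratDegree (F X X) : ℝ) ≤ 3 := by exact_mod_cast h2
  have h5 : (N : ℝ) * c ≤ c * ((N + n₀ + 2 + (N + n₀ + 2) : ℕ) : ℝ) := by
    rw [mul_comm]
    apply mul_le_mul_of_nonneg_left _ hc.le
    exact_mod_cast (by omega : N ≤ N + n₀ + 2 + (N + n₀ + 2))
  linarith

end Pool.Agent.Results.MP_35fdad_lc.RatDegreeAtMostThree
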